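import Mathlib

/-!
MP_91b10e_al, Q1: infinite products of non-abelian compact Hausdorff groups have a compact,
non-Noetherian Zariski topology; for finite centreless factors it is the product topology.
-/

set_option autoImplicit false

namespace Pool.Agent.Results.MP_91b10e_al.CompactNotNoetherian

universe u v

open Topology

/-- Words with constants in one variable: the free product of `G` and the infinite cyclic
group `⟨x⟩`, written as `Multiplicative ℤ` with generator `x = ofAdd 1`. -/
abbrev Word (G : Type u) [Group G] : Type u := Monoid.Coprod G (Multiplicative ℤ)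

/-- The value `w(a)` of the word `w`: the element `a` is substituted for `x`. -/
noncomputable def value {G : Type u} [Group G] (w : Word G) (a : G) : G :=
  Monoid.Coprod.lift (MonoidHom.id G) (zpowersHom G a) w

/-- The solution set `E_w = {a : w(a) = e}`. -/
def E {G : Type u} [Group G] (w : Word G) : Set G := {a | value w a = 1}

/-- The Zariski topology: the sets `E w` form a subbase for the closed sets. -/
@[reducible] def zariski (G : Type u) [Group G] : TopologicalSpace G :=
  TopologicalSpace.generateFrom {U : Set G | ∃ w : Word G, U = (E w)ᶜ}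

section general

variable {G : Type u} [Group G]

theorem value_mul (v w : Word G) (a : G) : value (v * w) a = value v a * value w a := by
  simp [value]

theorem value_const (g a : G) : value (Monoid.Coprod.inl g : Word G) a = g := by
  simp [value]

theorem value_pow (n : ℤ) (a : G) :
    value (Monoid.Coprod.inr (Multiplicative.ofAdd n) : Word G) a = a ^ n := by
  simp [value]

theorem isClosed_E (w : Word G) : IsClosed[zariski G] (E w) := by
  rw [← @isOpen_compl_iff G (E w) (zariski G)]
  exact TopologicalSpace.isOpen_generateFrom_of_mem ⟨w, rfl⟩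

/-- In a topological group, evaluation of a word with constants is continuous. -/
theorem continuous_value [TopologicalSpace G] [IsTopologicalGroup G] (w : Word G) :
    Continuous (fun x : G => value w x) := by
  induction w using Monoid.Coprod.induction_on' with
  | one => simpa [value] using (continuous_const : Continuous (fun _ : G => (1 : G)))
  | inl_mul m x ih =>
    have : (fun y : G => value (Monoid.Coprod.inl m * x) y) = fun y => m * value x y := by
      funext y; simp [value]
    rw [this]; exact continuous_const.mul ih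
  | inr_mul n x ih =>
    have : (fun y : G => value (Monoid.Coprod.inr n * x) y) =
        fun y => y ^ (Multiplicative.toAdd n) * value x y := by
      funext y; simp [value]
    rw [this]
    exact (continuous_zpow _).mul ih

/-- Any Hausdorff group topology is finer than the Zariski topology. -/
theorem le_zariski [τ : TopologicalSpace G] [IsTopologicalGroup G] [T2Space G] :
    τ ≤ zariski G := by
  apply le_generateFrom
  rintro U ⟨w, rfl⟩
  have h := continuous_value w
  exact isOpen_compl_singleton.preimage h

/-- A compact Hausdorff group has a compact Zariski topology. -/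
theorem compact_of_compact [τ : TopologicalSpace G] [IsTopologicalGroup G] [T2Space G]
    [CompactSpace G] : @CompactSpace G (zariski G) := by
  refine @CompactSpace.mk G (zariski G) ?_
  have h1 : @IsCompact G τ Set.univ := isCompact_univ
  have h2 := @IsCompact.image G G τ (zariski G) Set.univ id h1 (continuous_id_of_le le_zariski)
  simpa using h2

end general

section product

variable {I : Type u} {F : I → Type v} [∀ i, Group (F i)]

open Classical in
/-- The word `[x g, c]` whose constants `g`, `c` are supported in the coordinate `n`. -/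
noncomputable def comm (n : I) (g c : F n) : Word (∀ i, F i) :=
  Monoid.Coprod.inr (Multiplicative.ofAdd 1) * Monoid.Coprod.inl (Pi.mulSingle n g)
    * Monoid.Coprod.inl (Pi.mulSingle n c)
    * Monoid.Coprod.inl (Pi.mulSingle n g)⁻¹ * Monoid.Coprod.inr (Multiplicative.ofAdd (-1))
    * Monoid.Coprod.inl (Pi.mulSingle n c)⁻¹

theorem mem_E_comm (n : I) (g c : F n) (x : ∀ i, F i) :
    x ∈ E (comm n g c) ↔ x n * g * c = c * (x n * g) := by
  classical
  have e : value (comm n g c) x =
      x * Pi.mulSingle n g * Pi.mulSingle n c * (Pi.mulSingle n g)⁻¹ * x⁻¹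
        * (Pi.mulSingle n c)⁻¹ := by
    unfold comm
    rw [value_mul, value_mul, value_mul, value_mul, value_mul, value_pow, value_pow, value_const,
      value_const, value_const, value_const, zpow_one, zpow_neg, zpow_one]
  have e' : x ∈ E (comm n g c) ↔ value (comm n g c) x = 1 := Iff.rfl
  rw [e', e]
  constructor
  · intro h
    have h1 := congrFun h n
    simp only [Pi.mul_apply, Pi.inv_apply, Pi.mulSingle_eq_same, Pi.one_apply] at h1
    rw [mul_inv_eq_one] at h1
    have h2 : x n * g * c * g⁻¹ * (x n)⁻¹ * (x n * g) = c * (x n * g) := by rw [h1]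
    rw [← h2]
    group
  · intro h
    funext j
    by_cases hj : j = n
    · subst hj
      simp only [Pi.mul_apply, Pi.inv_apply, Pi.mulSingle_eq_same, Pi.one_apply]
      rw [h]
      group
    · simp [Pi.mulSingle_eq_of_ne hj]

/-- A product in which infinitely many factors are non-abelian is not Zariski-Noetherian. -/
theorem not_noetherian (hF : {i | ∃ a b : F i, a * b ≠ b * a}.Infinite) :
    ¬ @TopologicalSpace.NoetherianSpace (∀ i, F i) (zariski (∀ i, F i)) := by
  classical
  intro hN
  let _ : TopologicalSpace (∀ i, F i) := zariski (∀ i, F i)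
  have _ := hN
  let S : Set I := {i | ∃ a b : F i, a * b ≠ b * a}
  have _ : Infinite S := hF.to_subtype
  choose a b hab using fun i : S => i.2
  let U : S → Set (∀ i, F i) := fun n => (E (comm n.1 1 (a n)))ᶜ
  have hU : ∀ n, IsOpen (U n) := fun n =>
    TopologicalSpace.isOpen_generateFrom_of_mem ⟨comm n.1 1 (a n), rfl⟩
  have hm : ∀ (n : S) (x : ∀ i, F i), x ∈ U n ↔ x n.1 * a n ≠ a n * x n.1 := by
    intro n x
    rw [Set.mem_compl_iff, mem_E_comm, mul_one]
  have hc : IsCompact (⋃ n, U n) := TopologicalSpace.NoetherianSpace.isCompact _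
  obtain ⟨t, ht⟩ := hc.elim_finite_subcover U hU (le_refl _)
  obtain ⟨N, hN'⟩ := Infinite.exists_notMem_finset t
  have hmem : (Pi.mulSingle N.1 (b N) : ∀ i, F i) ∈ ⋃ n, U n := by
    refine Set.mem_iUnion.2 ⟨N, ?_⟩
    rw [hm, Pi.mulSingle_eq_same]
    exact fun h => hab N h.symm
  obtain ⟨n, hn⟩ := Set.mem_iUnion.1 (ht hmem)
  obtain ⟨hnt, hn⟩ := Set.mem_iUnion.1 hn
  have hne : n.1 ≠ N.1 := fun h => hN' ((Subtype.ext h : n = N) ▸ hnt)
  rw [hm, Pi.mulSingle_eq_of_ne hne] at hn
  simp at hn

theorem isClosed_slice (hZ : ∀ i, Subgroup.center (F i) = ⊥) (n : I) (g : F n) :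
    IsClosed[zariski (∀ i, F i)] {x : ∀ i, F i | x n = g} := by
  have e : {x : ∀ i, F i | x n = g} = ⋂ c : F n, E (comm n g⁻¹ c) := by
    ext x
    rw [Set.mem_iInter]
    constructor
    · intro h c
      have h' : x n = g := h
      rw [mem_E_comm, h']
      simp
    · intro h
      have h1 : x n * g⁻¹ ∈ Subgroup.center (F n) := by
        rw [Subgroup.mem_center_iff]
        intro c
        exact ((mem_E_comm n g⁻¹ c x).1 (h c)).symm
      rw [hZ n, Subgroup.mem_bot, mul_inv_eq_one] at h1
      exact h1
  rw [e]
  exact @isClosed_iInter _ _ (zariski (∀ i, F i)) _ fun c => isClosed_E _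

theorem isOpen_slice [∀ i, Finite (F i)] (hZ : ∀ i, Subgroup.center (F i) = ⊥) (n : I)
    (g : F n) : IsOpen[zariski (∀ i, F i)] {x : ∀ i, F i | x n = g} := by
  have e : {x : ∀ i, F i | x n = g}ᶜ = ⋃ h ∈ {h : F n | h ≠ g}, {x : ∀ i, F i | x n = h} := by
    ext x
    simp
  rw [← @isClosed_compl_iff _ (zariski (∀ i, F i)), e]
  exact @Set.Finite.isClosed_biUnion _ _ (zariski (∀ i, F i)) _ _ (Set.toFinite _)
    fun h _ => isClosed_slice hZ n h

/-- For finite centreless factors the Zariski topology is the product topology. -/
theorem zariski_eq [∀ i, Finite (F i)] (hZ : ∀ i, Subgroup.center (F i) = ⊥) :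
    zariski (∀ i, F i) = @Pi.topologicalSpace I F (fun _ => ⊥) := by
  let _ : ∀ i, TopologicalSpace (F i) := fun _ => ⊥
  have _ : ∀ i, DiscreteTopology (F i) := fun _ => ⟨rfl⟩
  apply le_antisymm
  · refine le_iInf fun n => ?_
    rw [← continuous_iff_le_induced]
    refine @Continuous.mk _ _ (zariski (∀ i, F i)) _ _ fun s _ => ?_
    have e : (fun x : ∀ i, F i => x n) ⁻¹' s = ⋃ g ∈ s, {x : ∀ i, F i | x n = g} := by
      ext x
      simp
    rw [e]
    exact @isOpen_biUnion _ _ (zariski (∀ i, F i)) _ _ fun g _ => isOpen_slice hZ n g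
  · exact le_zariski

end product

theorem center_perm : Subgroup.center (Equiv.Perm (Fin 3)) = ⊥ := by
  rw [eq_bot_iff]
  intro g hg
  rw [Subgroup.mem_center_iff] at hg
  rw [Subgroup.mem_bot]
  revert g
  decide

theorem family {I : Type u} {F : I → Type v} [∀ i, Group (F i)]
    (hF : {i | ∃ a b : F i, a * b ≠ b * a}.Infinite) [∀ i, Finite (F i)]
    (hZ : ∀ i, Subgroup.center (F i) = ⊥) :
    zariski (∀ i, F i) = @Pi.topologicalSpace I F (fun _ => ⊥) ∧
      @CompactSpace (∀ i, F i) (zariski (∀ i, F i)) ∧
      @T2Space (∀ i, F i) (zariski (∀ i, F i)) ∧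
      ¬ @TopologicalSpace.NoetherianSpace (∀ i, F i) (zariski (∀ i, F i)) := by
  have e := zariski_eq hZ
  refine ⟨e, ?_, ?_, not_noetherian hF⟩
  · rw [e]
    let _ : ∀ i, TopologicalSpace (F i) := fun _ => ⊥
    have _ : ∀ i, DiscreteTopology (F i) := fun _ => ⟨rfl⟩
    infer_instance
  · rw [e]
    let _ : ∀ i, TopologicalSpace (F i) := fun _ => ⊥
    have _ : ∀ i, DiscreteTopology (F i) := fun _ => ⟨rfl⟩
    infer_instance

/-- **Negative answer to Q1**: some group has a compact Hausdorff Zariski topology that is not
Noetherian. More generally let infinitely many of the groups `F i` be non-abelian. If all `F i`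
are compact Hausdorff groups, then the Zariski topology of the full product is compact and not
Noetherian; if all `F i` are finite with trivial centre, it is moreover the product topology. -/
theorem result :
    (∃ (G : Type) (_ : Group G), @CompactSpace G (zariski G) ∧ @T2Space G (zariski G) ∧
      ¬ @TopologicalSpace.NoetherianSpace G (zariski G)) ∧
    ∀ (I : Type u) (F : I → Type v) [∀ i, Group (F i)],
      {i | ∃ a b : F i, a * b ≠ b * a}.Infinite →
      (∀ [∀ i, TopologicalSpace (F i)] [∀ i, IsTopologicalGroup (F i)] [∀ i, CompactSpace (F i)]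
        [∀ i, T2Space (F i)], @CompactSpace (∀ i, F i) (zariski (∀ i, F i)) ∧
          ¬ @TopologicalSpace.NoetherianSpace (∀ i, F i) (zariski (∀ i, F i))) ∧
      (∀ [∀ i, Finite (F i)], (∀ i, Subgroup.center (F i) = ⊥) →
        zariski (∀ i, F i) = @Pi.topologicalSpace I F (fun _ => ⊥) ∧
          @CompactSpace (∀ i, F i) (zariski (∀ i, F i)) ∧
          @T2Space (∀ i, F i) (zariski (∀ i, F i)) ∧
          ¬ @TopologicalSpace.NoetherianSpace (∀ i, F i) (zariski (∀ i, F i))) := by
  constructor
  · have hF : {i : ℕ | ∃ a b : Equiv.Perm (Fin 3), a * b ≠ b * a}.Infinite := by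
      have : {i : ℕ | ∃ a b : Equiv.Perm (Fin 3), a * b ≠ b * a} = Set.univ := by
        ext i
        simp only [Set.mem_ofPred_eq, Set.mem_univ, iff_true]
        exact ⟨Equiv.swap 0 1, Equiv.swap 1 2, by decide⟩
      rw [this]
      exact Set.infinite_univ
    exact ⟨ℕ → Equiv.Perm (Fin 3), inferInstance, (family hF fun _ => center_perm).2⟩
  · intro I F _ hF
    refine ⟨?_, fun hZ => family hF hZ⟩
    intro _ _ _ _
    exact ⟨compact_of_compact, not_noetherian hF⟩

end Pool.Agent.Results.MP_91b10e_al.CompactNotNoetherian
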